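import Mathlib
import Pool.Agent.Lib_helper69.Iso.Proof

/-!
# The two thirds bound for the game total isolation number

The definitions (`TotalIsolation.openNbhd`, `TotalIsolation.Playable`, `TotalIsolation.gameValue`,
`TotalIsolation.gameTotalIsolationNumber`) are in `Pool.Agent.Lib_helper69.Iso.Defs`.
-/

namespace Pool.Agent.Results.MP_6ae433_co.TwoThirdsBound

open TotalIsolation

/-- If every connected component of the finite graph `G` has at least three vertices, then the
game total isolation number of `G` is at most two thirds of the order of `G`. -/
theorem result {V : Type*} [Fintype V] [DecidableEq V] (G : SimpleGraph V)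
    (hG : ∀ C : G.ConnectedComponent, 3 ≤ C.supp.ncard) :
    (gameTotalIsolationNumber G : ℚ) ≤ 2 / 3 * (Fintype.card V : ℚ) := by
  have h := main (noK2_of_components hG)
  have h' : (3 : ℚ) * (gameTotalIsolationNumber G : ℚ) ≤ 2 * (Fintype.card V : ℚ) := by
    exact_mod_cast h
  linarith

end Pool.Agent.Results.MP_6ae433_co.TwoThirdsBound
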